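import Mathlib

set_option autoImplicit false

namespace Pool.Agent.Results.MP_93b7f4_co.NotCritical

/-- `G` is `k`-critical: its chromatic number is `k`, and every proper subgraph (fewer edges or
fewer vertices) has chromatic number less than `k`. -/
def IsCritical (k : ℕ) {V : Type} (G : SimpleGraph V) : Prop :=
  G.chromaticNumber = k ∧ ∀ G' : G.Subgraph, G' ≠ ⊤ → G'.coe.chromaticNumber < k

/-- Identify `H₂ ⊆ V₂` with `H₁ ⊆ V₁` along `φ`.  The new vertex set consists of `V₁` and the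
vertices of `V₂` outside `H₂`; `into₂ φ b` is the new name of the vertex `b` of `V₂`. -/
noncomputable def into₂ {V₁ V₂ : Type} {H₁ : Set V₁} {H₂ : Set V₂} (φ : H₁ ≃ H₂) (b : V₂) :
    V₁ ⊕ {b : V₂ // b ∉ H₂} := by
  classical
  exact if h : b ∈ H₂ then Sum.inl (φ.symm ⟨b, h⟩ : V₁) else Sum.inr ⟨b, h⟩

/-- Dirac's construction: the disjoint union of `G₁` and `G₂` with `H₁` and `H₂` identified along
`φ` (parallel edges merged), the edges `x₁y₁` and `x₂y₂` deleted, and the edge `y₁y₂` added. -/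
noncomputable def diracGraph {V₁ V₂ : Type} (G₁ : SimpleGraph V₁) (G₂ : SimpleGraph V₂)
    {H₁ : Set V₁} {H₂ : Set V₂} (φ : H₁ ≃ H₂) (x₁ y₁ : V₁) (x₂ y₂ : V₂) :
    SimpleGraph (V₁ ⊕ {b : V₂ // b ∉ H₂}) :=
  SimpleGraph.fromRel fun p q =>
    (∃ a b, G₁.Adj a b ∧ s(a, b) ≠ s(x₁, y₁) ∧ p = Sum.inl a ∧ q = Sum.inl b) ∨
    (∃ a b, G₂.Adj a b ∧ s(a, b) ≠ s(x₂, y₂) ∧ p = into₂ φ a ∧ q = into₂ φ b) ∨
    (p = Sum.inl y₁ ∧ q = into₂ φ y₂)

/-! ### a 5-critical graph on ten vertices -/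


def edges : List (Fin 10 × Fin 10) :=
  [(0,1), (0,2), (0,4), (0,6), (0,7), (1,4), (1,5), (1,6), (1,9), (2,7), (2,8), (2,9),
   (3,4), (3,5), (3,6), (3,7), (3,8), (3,9), (4,5), (4,7), (5,8), (5,9), (6,9), (8,9),
   (1,2), (0,3)]

def adjB (i j : Fin 10) : Bool := ((i, j) ∈ edges) || ((j, i) ∈ edges)

def G : SimpleGraph (Fin 10) where
  Adj i j := adjB i j = true
  symm := ⟨by decide +kernel⟩
  loopless := ⟨by decide +kernel⟩

instance : DecidableRel G.Adj := fun i j => inferInstanceAs (Decidable (adjB i j = true))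

set_option synthInstance.maxSize 4000 in
set_option synthInstance.maxHeartbeats 4000000 in
/-- The key property, checked over all partial colourings: in every 4-colouring of
`G - {12, 03}` either `c 1 = c 2 = c 3`, or `c 1 ≠ c 2` and `c 0 = c 3`. -/
theorem key : ∀ c0 c1 : Fin 4, c0 ≠ c1 → ∀ c4 : Fin 4, (c0 ≠ c4 ∧ c1 ≠ c4) →
    ∀ c6 : Fin 4, (c0 ≠ c6 ∧ c1 ≠ c6) → ∀ c9 : Fin 4, (c1 ≠ c9 ∧ c6 ≠ c9) →
    ∀ c5 : Fin 4, (c1 ≠ c5 ∧ c4 ≠ c5 ∧ c5 ≠ c9) →
    ∀ c3 : Fin 4, (c3 ≠ c4 ∧ c3 ≠ c5 ∧ c3 ≠ c6 ∧ c3 ≠ c9) →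
    ∀ c7 : Fin 4, (c0 ≠ c7 ∧ c3 ≠ c7 ∧ c4 ≠ c7) →
    ∀ c2 : Fin 4, (c0 ≠ c2 ∧ c2 ≠ c7 ∧ c2 ≠ c9) →
    ∀ c8 : Fin 4, (c2 ≠ c8 ∧ c3 ≠ c8 ∧ c5 ≠ c8 ∧ c8 ≠ c9) →
    (c1 = c2 ∧ c3 = c1) ∨ (c1 ≠ c2 ∧ c0 = c3) := by
  decide +kernel

/-- colourings of `G - e`, one for each edge `e` -/
def colTab : List (ℕ × ℕ × List ℕ) :=
  [(0, 1, [3, 3, 0, 0, 1, 2, 2, 2, 3, 1]),
   (0, 2, [2, 0, 2, 0, 1, 2, 3, 3, 3, 1]),
   (0, 4, [1, 0, 2, 0, 1, 2, 2, 3, 3, 1]),
   (0, 6, [2, 3, 0, 0, 1, 2, 2, 3, 3, 1]),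
   (0, 7, [1, 0, 2, 0, 3, 2, 2, 1, 3, 1]),
   (1, 4, [1, 2, 0, 0, 2, 3, 3, 3, 2, 1]),
   (1, 5, [1, 3, 0, 0, 2, 3, 2, 3, 2, 1]),
   (1, 6, [1, 3, 0, 0, 2, 1, 3, 3, 3, 2]),
   (1, 9, [1, 3, 0, 0, 2, 1, 2, 3, 2, 3]),
   (2, 7, [1, 0, 3, 0, 2, 3, 2, 3, 2, 1]),
   (2, 8, [1, 0, 2, 0, 2, 3, 2, 3, 2, 1]),
   (2, 9, [1, 0, 2, 0, 2, 1, 3, 3, 3, 2]),
   (3, 4, [0, 1, 2, 3, 3, 2, 2, 1, 1, 0]),
   (3, 5, [0, 1, 2, 3, 2, 3, 2, 1, 1, 0]),
   (3, 6, [0, 1, 2, 2, 3, 0, 2, 1, 1, 3]),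
   (3, 7, [0, 1, 2, 1, 3, 2, 2, 1, 3, 0]),
   (3, 8, [0, 1, 2, 1, 2, 3, 2, 3, 1, 0]),
   (3, 9, [0, 1, 2, 3, 2, 0, 2, 1, 1, 3]),
   (4, 5, [1, 0, 2, 0, 2, 2, 2, 3, 3, 1]),
   (4, 7, [1, 0, 3, 0, 2, 3, 2, 2, 2, 1]),
   (5, 8, [1, 0, 2, 0, 2, 3, 2, 3, 3, 1]),
   (5, 9, [1, 0, 2, 0, 2, 1, 2, 3, 3, 1]),
   (6, 9, [1, 3, 0, 0, 2, 1, 2, 3, 3, 2]),
   (8, 9, [1, 0, 2, 0, 2, 1, 2, 3, 3, 3]),
   (1, 2, [1, 0, 0, 0, 2, 1, 3, 3, 3, 2]),
   (0, 3, [3, 0, 2, 3, 1, 2, 2, 0, 0, 1])]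

/-- the colouring listed for the edge `ab` (in either order) -/
def colOf (a b : Fin 10) (v : Fin 10) : Fin 4 :=
  match colTab.find? (fun t => (t.1 == a.val && t.2.1 == b.val) || (t.1 == b.val && t.2.1 == a.val)) with
  | some t => Fin.ofNat 4 (t.2.2.getD v.val 0)
  | none => 0

theorem colOf_proper : ∀ a b : Fin 10, adjB a b = true → ∀ v w : Fin 10, adjB v w = true →
    ¬ ((v = a ∧ w = b) ∨ (v = b ∧ w = a)) → colOf a b v ≠ colOf a b w := by
  decide +kernel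

theorem key' (c : Fin 10 → Fin 4)
    (hc : ∀ v w, G.Adj v w → s(v, w) ≠ s(0, 3) → s(v, w) ≠ s(1, 2) → c v ≠ c w) :
    (c 1 = c 2 ∧ c 3 = c 1) ∨ (c 1 ≠ c 2 ∧ c 0 = c 3) := by
  have h : ∀ v w, adjB v w = true → ¬ ((v = 0 ∧ w = 3) ∨ (v = 3 ∧ w = 0)) →
      ¬ ((v = 1 ∧ w = 2) ∨ (v = 2 ∧ w = 1)) → c v ≠ c w := by
    intro v w hvw h1 h2
    refine hc v w hvw ?_ ?_
    · intro h3
      exact h1 (by simpa [Sym2.eq_iff] using h3)
    · intro h3
      exact h2 (by simpa [Sym2.eq_iff] using h3)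
  exact key (c 0) (c 1) (h _ _ (by decide) (by decide) (by decide))
    (c 4)
      ⟨h _ _ (by decide) (by decide) (by decide),
       h _ _ (by decide) (by decide) (by decide)⟩
    (c 6)
      ⟨h _ _ (by decide) (by decide) (by decide),
       h _ _ (by decide) (by decide) (by decide)⟩
    (c 9)
      ⟨h _ _ (by decide) (by decide) (by decide),
       h _ _ (by decide) (by decide) (by decide)⟩
    (c 5)
      ⟨h _ _ (by decide) (by decide) (by decide),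
       h _ _ (by decide) (by decide) (by decide),
       h _ _ (by decide) (by decide) (by decide)⟩
    (c 3)
      ⟨h _ _ (by decide) (by decide) (by decide),
       h _ _ (by decide) (by decide) (by decide),
       h _ _ (by decide) (by decide) (by decide),
       h _ _ (by decide) (by decide) (by decide)⟩
    (c 7)
      ⟨h _ _ (by decide) (by decide) (by decide),
       h _ _ (by decide) (by decide) (by decide),
       h _ _ (by decide) (by decide) (by decide)⟩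
    (c 2)
      ⟨h _ _ (by decide) (by decide) (by decide),
       h _ _ (by decide) (by decide) (by decide),
       h _ _ (by decide) (by decide) (by decide)⟩
    (c 8)
      ⟨h _ _ (by decide) (by decide) (by decide),
       h _ _ (by decide) (by decide) (by decide),
       h _ _ (by decide) (by decide) (by decide),
       h _ _ (by decide) (by decide) (by decide)⟩

theorem not_colorable_four : ¬ G.Colorable 4 := by
  rintro ⟨C⟩
  rcases key' C (fun v w h _ _ => C.valid h) with h | h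
  · exact C.valid (show G.Adj 1 2 by decide) h.1
  · exact C.valid (show G.Adj 0 3 by decide) h.2

theorem colorable_five : G.Colorable 5 := by
  refine ⟨SimpleGraph.Coloring.mk
    (fun v : Fin 10 => (Fin.ofNat 5 ([1, 0, 2, 0, 2, 3, 2, 3, 4, 1].getD v.val 0) : Fin 5)) ?_⟩
  intro v w h
  revert v w
  decide +kernel

theorem proper_colorable (G' : G.Subgraph) (hG' : G' ≠ ⊤) : G'.coe.Colorable 4 := by
  -- some edge of `G` is missing in `G'`
  have h1 : ∃ a b, G.Adj a b ∧ ¬ G'.Adj a b := by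
    by_contra hcon
    push Not at hcon
    apply hG'
    have hv : ∀ v, v ∈ G'.verts := by
      intro v
      have : ∃ w, G.Adj v w := by revert v; decide +kernel
      obtain ⟨w, hw⟩ := this
      exact G'.edge_vert (hcon v w hw)
    ext a b
    · simp [hv]
    · constructor
      · intro h
        exact G'.adj_sub h
      · intro h
        exact hcon a b (by simpa using h)
  obtain ⟨a, b, hab, hnab⟩ := h1
  refine ⟨SimpleGraph.Coloring.mk (fun v => colOf a b v.1) ?_⟩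
  intro v w hvw
  have h2 : G'.Adj v.1 w.1 := by simpa using hvw
  apply colOf_proper a b hab v.1 w.1 (G'.adj_sub h2)
  rintro (⟨h3, h4⟩ | ⟨h3, h4⟩)
  · rw [h3, h4] at h2
    exact hnab h2
  · rw [h3, h4] at h2
    exact hnab h2.symm

theorem critical_G : IsCritical 5 G := by
  constructor
  · apply le_antisymm
    · exact SimpleGraph.chromaticNumber_le_iff_colorable.2 colorable_five
    · by_contra hlt
      rw [not_le] at hlt
      apply not_colorable_four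
      have : G.chromaticNumber ≤ (4 : ℕ) := by
        have h5 : ((5 : ℕ) : ℕ∞) = ((4 : ℕ) : ℕ∞) + 1 := by norm_num
        rw [h5] at hlt
        exact Order.le_of_lt_add_one hlt
      exact SimpleGraph.chromaticNumber_le_iff_colorable.1 this
  · intro G' hG'
    refine lt_of_le_of_lt (SimpleGraph.chromaticNumber_le_iff_colorable.2
      (proper_colorable G' hG')) ?_
    norm_num

/-- Negative answer: it is not true that Dirac's construction always yields a `k`-critical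
graph. -/
theorem result :
    ¬ (∀ k h : ℕ, 4 ≤ k → 1 ≤ h → h ≤ k - 2 →
      ∀ (V₁ V₂ : Type) [Finite V₁] [Finite V₂] (G₁ : SimpleGraph V₁) (G₂ : SimpleGraph V₂),
        IsCritical k G₁ → IsCritical k G₂ →
        ∀ (H₁ : Set V₁) (H₂ : Set V₂), G₁.IsClique H₁ → H₁.ncard = h →
          G₂.IsClique H₂ → H₂.ncard = h →
        ∀ (φ : H₁ ≃ H₂) (x₁ y₁ : V₁) (x₂ y₂ : V₂) (hx₁ : x₁ ∈ H₁), x₂ ∈ H₂ →
          (φ ⟨x₁, hx₁⟩ : V₂) = x₂ → y₁ ∉ H₁ → G₁.Adj x₁ y₁ → y₂ ∉ H₂ → G₂.Adj x₂ y₂ →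
          IsCritical k (diracGraph G₁ G₂ φ x₁ y₁ x₂ y₂)) := by
  intro hall
  have hH : G.IsClique ({0, 1, 2} : Set (Fin 10)) := by
    intro a ha b hb hab
    have : ∀ a b : Fin 10, (a = 0 ∨ a = 1 ∨ a = 2) → (b = 0 ∨ b = 1 ∨ b = 2) → a ≠ b →
        G.Adj a b := by decide +kernel
    exact this a b (by simpa using ha) (by simpa using hb) hab
  have hcard : ({0, 1, 2} : Set (Fin 10)).ncard = 3 := by
    rw [Set.ncard_eq_toFinset_card']
    decide
  have hcrit := hall 5 3 (by norm_num) (by norm_num) (by norm_num) (Fin 10) (Fin 10) G G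
    critical_G critical_G {0, 1, 2} {0, 1, 2} hH hcard hH hcard (Equiv.refl _) 0 3 0 3
    (by simp) (by simp) rfl (by simp) (by decide) (by simp) (by decide)
  set φ : (({0, 1, 2} : Set (Fin 10)) : Type) ≃ (({0, 1, 2} : Set (Fin 10)) : Type) :=
    Equiv.refl _ with hφ
  set D := diracGraph G G φ 0 3 0 3 with hD
  obtain ⟨-, hsub⟩ := hcrit
  have e12 : D.Adj (Sum.inl 1) (Sum.inl 2) := by
    rw [hD]
    unfold diracGraph
    rw [SimpleGraph.fromRel_adj]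
    refine ⟨by simp, Or.inl (Or.inl ⟨1, 2, by decide, by decide, rfl, rfl⟩)⟩
  have hne : (⊤ : D.Subgraph).deleteEdges {s(Sum.inl 1, Sum.inl 2)} ≠ ⊤ := by
    intro h
    have h1 : ((⊤ : D.Subgraph).deleteEdges {s(Sum.inl 1, Sum.inl 2)}).Adj
        (Sum.inl 1) (Sum.inl 2) := by
      rw [h]
      simpa using e12
    simp at h1
  have hlt := hsub _ hne
  have hle : ((⊤ : D.Subgraph).deleteEdges {s(Sum.inl 1, Sum.inl 2)}).coe.chromaticNumber
      ≤ (4 : ℕ) := by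
    have h5 : ((5 : ℕ) : ℕ∞) = ((4 : ℕ) : ℕ∞) + 1 := by norm_num
    rw [h5] at hlt
    exact Order.le_of_lt_add_one hlt
  obtain ⟨C⟩ := SimpleGraph.chromaticNumber_le_iff_colorable.1 hle
  -- the colouring as a function on all vertices
  let c : Fin 10 ⊕ {b : Fin 10 // b ∉ ({0, 1, 2} : Set (Fin 10))} → Fin 4 :=
    fun v => C ⟨v, by simp⟩
  have hc : ∀ v w, D.Adj v w → s(v, w) ≠ s(Sum.inl 1, Sum.inl 2) → c v ≠ c w := by
    intro v w hvw hne2
    apply C.valid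
    simp only [SimpleGraph.Subgraph.coe_adj, SimpleGraph.Subgraph.deleteEdges_adj,
      SimpleGraph.Subgraph.top_adj]
    exact ⟨hvw, by simpa using hne2⟩
  have into_in : ∀ b (hb : b ∈ ({0, 1, 2} : Set (Fin 10))), into₂ φ b = Sum.inl b := by
    intro b hb
    unfold into₂
    rw [dif_pos hb]
    rfl
  have into_out : ∀ b (hb : b ∉ ({0, 1, 2} : Set (Fin 10))), into₂ φ b = Sum.inr ⟨b, hb⟩ := by
    intro b hb
    unfold into₂
    rw [dif_neg hb]
  have into_inj : ∀ a b, into₂ φ a = into₂ φ b → a = b := by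
    intro a b hab
    by_cases ha : a ∈ ({0, 1, 2} : Set (Fin 10)) <;> by_cases hb : b ∈ ({0, 1, 2} : Set (Fin 10))
    · rw [into_in a ha, into_in b hb] at hab
      exact Sum.inl.inj hab
    · rw [into_in a ha, into_out b hb] at hab
      cases hab
    · rw [into_out a ha, into_in b hb] at hab
      cases hab
    · rw [into_out a ha, into_out b hb] at hab
      exact congrArg Subtype.val (Sum.inr.inj hab)
  have i0 : into₂ φ 0 = Sum.inl 0 := into_in 0 (by simp)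
  have i1 : into₂ φ 1 = Sum.inl 1 := into_in 1 (by simp)
  have i2 : into₂ φ 2 = Sum.inl 2 := into_in 2 (by simp)
  have k1 := key' (fun v => c (Sum.inl v)) (by
    intro v w hvw h03 h12
    apply hc
    · rw [hD]
      unfold diracGraph
      rw [SimpleGraph.fromRel_adj]
      refine ⟨?_, Or.inl (Or.inl ⟨v, w, hvw, h03, rfl, rfl⟩)⟩
      intro h
      exact hvw.ne (Sum.inl.inj h)
    · intro h
      apply h12
      rw [Sym2.eq_iff] at h ⊢
      rcases h with ⟨h1, h2⟩ | ⟨h1, h2⟩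
      · exact Or.inl ⟨Sum.inl.inj h1, Sum.inl.inj h2⟩
      · exact Or.inr ⟨Sum.inl.inj h1, Sum.inl.inj h2⟩)
  have k2 := key' (fun v => c (into₂ φ v)) (by
    intro v w hvw h03 h12
    apply hc
    · rw [hD]
      unfold diracGraph
      rw [SimpleGraph.fromRel_adj]
      refine ⟨?_, Or.inl (Or.inr (Or.inl ⟨v, w, hvw, h03, rfl, rfl⟩))⟩
      intro h
      exact hvw.ne (into_inj _ _ h)
    · intro h
      apply h12
      rw [← i1, ← i2] at h
      rw [Sym2.eq_iff] at h ⊢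
      rcases h with ⟨h1, h2⟩ | ⟨h1, h2⟩
      · exact Or.inl ⟨into_inj _ _ h1, into_inj _ _ h2⟩
      · exact Or.inr ⟨into_inj _ _ h1, into_inj _ _ h2⟩)
  have hyy : c (Sum.inl 3) ≠ c (into₂ φ 3) := by
    apply hc
    · rw [hD]
      unfold diracGraph
      rw [SimpleGraph.fromRel_adj]
      refine ⟨?_, Or.inl (Or.inr (Or.inr ⟨rfl, rfl⟩))⟩
      rw [into_out 3 (by simp)]
      simp
    · intro h
      rw [Sym2.eq_iff] at h
      rcases h with ⟨h1, h2⟩ | ⟨h1, h2⟩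
      · exact absurd (Sum.inl.inj h1) (by decide)
      · exact absurd (Sum.inl.inj h1) (by decide)
  simp only [i0, i1, i2] at k2
  rcases k1 with ⟨a1, a2⟩ | ⟨a1, a2⟩
  · rcases k2 with ⟨b1, b2⟩ | ⟨b1, b2⟩
    · exact hyy (a2.trans b2.symm)
    · exact b1 a1
  · rcases k2 with ⟨b1, b2⟩ | ⟨b1, b2⟩
    · exact a1 b1
    · exact hyy (a2.symm.trans b2)

end Pool.Agent.Results.MP_93b7f4_co.NotCritical
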